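import Pool.Agent.W92.ET.Base2

/-!
# ET2-RECIP: the sum of the reciprocals is bounded (helper352, for helper92; adapted from the
proof of helper790 for `K = 3`)
-/

set_option autoImplicit false

namespace Pool.Agent.W352.ET

open Pool.Agent.W92.ET

/-- the pairs counted by `uc` -/
def UC (A : Set ℕ) (n : ℕ) : Set (ℕ × ℕ) :=
  {p : ℕ × ℕ | p.1 ∈ A ∧ p.2 ∈ A ∧ p.1 ≤ p.2 ∧ p.1 + p.2 = n}

theorem UC_subset (A : Set ℕ) (n : ℕ) :
    UC A n ⊆ ((Finset.HasAntidiagonal.antidiagonal n : Finset (ℕ × ℕ)) : Set (ℕ × ℕ)) := by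
  intro p hp
  rw [Finset.mem_coe, Finset.HasAntidiagonal.mem_antidiagonal]
  exact hp.2.2.2

theorem UC_finite (A : Set ℕ) (n : ℕ) : (UC A n).Finite :=
  (Finset.finite_toSet _).subset (UC_subset A n)

theorem uc_le (A : Set ℕ) (n : ℕ) : uc A n ≤ n + 1 := by
  have h := Set.ncard_le_ncard (UC_subset A n) (Finset.finite_toSet _)
  rw [Set.ncard_coe_finset, Finset.Nat.card_antidiagonal] at h
  exact h

theorem mem_tr {A : Set ℕ} {N a : ℕ} : a ∈ tr A N ↔ (1 ≤ a ∧ a ≤ N) ∧ a ∈ A := by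
  unfold tr
  simp [Finset.mem_filter, Finset.mem_Icc]

theorem card_sq {A : Set ℕ} {n₀ K : ℕ} (h : ∀ n, n₀ ≤ n → uc A n ≤ K) (N : ℕ) :
    (tr A N).card ^ 2 ≤ 2 * ((2 * N + 1) * (n₀ + K)) := by
  classical
  have huc : ∀ n, uc A n ≤ n₀ + K := by
    intro n
    by_cases hn : n₀ ≤ n
    · exact (h n hn).trans (by omega)
    · exact (uc_le A n).trans (by omega)
  set P := ((tr A N) ×ˢ (tr A N)).filter (fun p => p.1 ≤ p.2) with hP
  set Q := ((tr A N) ×ˢ (tr A N)).filter (fun p => p.2 ≤ p.1) with hQ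
  have h1 : (tr A N) ×ˢ (tr A N) ⊆ P ∪ Q := by
    intro p hp
    rw [Finset.mem_union, hP, hQ, Finset.mem_filter, Finset.mem_filter]
    rcases le_total p.1 p.2 with h | h
    · exact Or.inl ⟨hp, h⟩
    · exact Or.inr ⟨hp, h⟩
  have h2 : Q.card ≤ P.card := by
    refine Finset.card_le_card_of_injOn Prod.swap ?_ Prod.swap_injective.injOn
    intro p hp
    rw [Finset.mem_coe, hQ, Finset.mem_filter, Finset.mem_product] at hp
    rw [Finset.mem_coe, hP, Finset.mem_filter, Finset.mem_product]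
    exact ⟨⟨hp.1.2, hp.1.1⟩, hp.2⟩
  have h3 : P.card ≤ (2 * N + 1) * (n₀ + K) := by
    have h4 : P.card = ∑ n ∈ Finset.range (2 * N + 1),
        (P.filter (fun p => p.1 + p.2 = n)).card := by
      refine Finset.card_eq_sum_card_fiberwise ?_
      intro p hp
      rw [Finset.mem_coe, hP, Finset.mem_filter, Finset.mem_product, mem_tr, mem_tr] at hp
      rw [Finset.mem_coe, Finset.mem_range]
      show p.1 + p.2 < 2 * N + 1
      omega
    rw [h4]
    refine (Finset.sum_le_card_nsmul _ _ (n₀ + K) ?_).trans ?_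
    · intro n _
      refine le_trans ?_ (huc n)
      have h5 : (↑(P.filter (fun p => p.1 + p.2 = n)) : Set (ℕ × ℕ)) ⊆ UC A n := by
        intro p hp
        rw [Finset.mem_coe, Finset.mem_filter, hP, Finset.mem_filter, Finset.mem_product,
          mem_tr, mem_tr] at hp
        exact ⟨hp.1.1.1.2, hp.1.1.2.2, hp.1.2, hp.2⟩
      have h6 := Set.ncard_le_ncard h5 (UC_finite A n)
      rw [Set.ncard_coe_finset] at h6
      exact h6
    · rw [Finset.card_range, smul_eq_mul]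
  have h7 := Finset.card_le_card h1
  have h8 := Finset.card_union_le P Q
  rw [Finset.card_product] at h7
  rw [pow_two]
  omega

theorem tr_succ (A : Set ℕ) (N : ℕ) : tr A (N + 1) = tr A N ∨
    (N + 1 ∉ tr A N ∧ tr A (N + 1) = insert (N + 1) (tr A N)) := by
  by_cases h : N + 1 ∈ A
  · right
    refine ⟨fun h' => ?_, ?_⟩
    · rw [mem_tr] at h'
      omega
    · ext a
      rw [Finset.mem_insert, mem_tr, mem_tr]
      constructor
      · rintro ⟨⟨h1, h2⟩, h3⟩
        by_cases h4 : a = N + 1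
        · exact Or.inl h4
        · exact Or.inr ⟨⟨h1, by omega⟩, h3⟩
      · rintro (rfl | ⟨⟨h1, h2⟩, h3⟩)
        · exact ⟨⟨by omega, le_rfl⟩, h⟩
        · exact ⟨⟨h1, by omega⟩, h3⟩
  · left
    ext a
    rw [mem_tr, mem_tr]
    constructor
    · rintro ⟨⟨h1, h2⟩, h3⟩
      refine ⟨⟨h1, ?_⟩, h3⟩
      by_contra h4
      have : a = N + 1 := by omega
      rw [this] at h3
      exact h h3
    · rintro ⟨⟨h1, h2⟩, h3⟩
      exact ⟨⟨h1, by omega⟩, h3⟩

theorem sum_le {A : Set ℕ} {n₀ K : ℕ} (h : ∀ n, n₀ ≤ n → uc A n ≤ K) (N : ℕ) :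
    ∑ a ∈ tr A N, 1 / (a : ℝ) ≤
      ∑ k ∈ Finset.range (tr A N).card, (6 * ((n₀ : ℝ) + K)) * (1 / ((k : ℝ) + 1) ^ 2) := by
  induction N with
  | zero =>
    have : tr A 0 = ∅ := by
      ext a
      rw [mem_tr]
      simp
      omega
    simp [this]
  | succ N ih =>
    rcases tr_succ A N with h1 | ⟨h1, h2⟩
    · rw [h1]
      exact ih
    · have h3 := card_sq h (N + 1)
      rw [h2, Finset.card_insert_of_notMem h1] at h3
      rw [h2, Finset.sum_insert h1, Finset.card_insert_of_notMem h1, Finset.sum_range_succ]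
      have h4 : 1 / ((N + 1 : ℕ) : ℝ) ≤
          (6 * ((n₀ : ℝ) + K)) * (1 / (((tr A N).card : ℝ) + 1) ^ 2) := by
        have h5 : (((tr A N).card : ℝ) + 1) ^ 2 ≤ 2 * ((2 * ((N : ℝ) + 1) + 1) * ((n₀ : ℝ) + K)) := by
          exact_mod_cast h3
        have hN : (0 : ℝ) < ((N + 1 : ℕ) : ℝ) := by positivity
        have hc : (0 : ℝ) < (((tr A N).card : ℝ) + 1) ^ 2 := by positivity
        rw [mul_one_div, div_le_div_iff₀ hN hc]
        push_cast
        have h6 : (0 : ℝ) ≤ (N : ℝ) := Nat.cast_nonneg _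
        have h7 : (0 : ℝ) ≤ (n₀ : ℝ) + K := by positivity
        nlinarith [mul_nonneg h6 h7]
      linarith

theorem recip2 : S_recip2 := by
  intro A n₀ K h
  have hs : Summable (fun k : ℕ => (6 * ((n₀ : ℝ) + K)) * (1 / ((k : ℝ) + 1) ^ 2)) := by
    apply Summable.mul_left
    have h1 := (summable_nat_add_iff 1).2 (Real.summable_one_div_nat_pow.2 (le_refl 2))
    refine h1.congr fun k => ?_
    push_cast
    rfl
  refine ⟨∑' k : ℕ, (6 * ((n₀ : ℝ) + K)) * (1 / ((k : ℝ) + 1) ^ 2), fun N => ?_⟩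
  refine (sum_le h N).trans ?_
  exact hs.sum_le_tsum _ (fun k _ => by positivity)

end Pool.Agent.W352.ET
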